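import Pool.Agent.Helper18.PS.St2

/-!
# Project PS (MP_4afa08_nt), module PI2: upper bound sieve for the pairs of primes
-/

set_option autoImplicit false

noncomputable section

namespace Pool.Agent.Helper24.PS

open Finset
open Nat (totient)
open Pool.Agent.Helper18.PS
open Pool.Agent.Helper98.LM (StSV)
open Pool.Agent.Helper15.AB (StMT)

private def MM (y : ℕ) : ℝ := ∑ l ∈ (Icc 1 y).filter Nat.Prime, (1 : ℝ) / l

private def QP (w : ℕ) : Finset ℕ := (Icc 8 w).filter Nat.Prime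

private def SP (l : ℕ) : Finset ℕ := {0, (l + 1) / 2}

private theorem mm7 : MM 7 ≤ 2 := by
  have h : (Icc 1 7).filter Nat.Prime = {2, 3, 5, 7} := by decide
  unfold MM
  rw [h]
  norm_num

private theorem qp_sum (w : ℕ) : MM w - 2 ≤ ∑ l ∈ QP w, (1 : ℝ) / l := by
  have hsub : (Icc 1 w).filter Nat.Prime ⊆ (Icc 1 7).filter Nat.Prime ∪ QP w := by
    intro l
    unfold QP
    simp only [mem_union, mem_filter, mem_Icc]
    rintro ⟨⟨h1, h2⟩, h3⟩
    by_cases h4 : l ≤ 7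
    · exact Or.inl ⟨⟨h1, h4⟩, h3⟩
    · exact Or.inr ⟨⟨by omega, h2⟩, h3⟩
  have hd : Disjoint ((Icc 1 7).filter Nat.Prime) (QP w) := by
    rw [Finset.disjoint_left]
    intro l h1 h2
    unfold QP at h2
    simp only [mem_filter, mem_Icc] at h1 h2
    omega
  have h1 : MM w ≤ MM 7 + ∑ l ∈ QP w, (1 : ℝ) / l := by
    unfold MM
    rw [← sum_union hd]
    exact sum_le_sum_of_subset_of_nonneg hsub fun l _ _ => by positivity
  have h2 := mm7
  linarith

private theorem card_SP {l : ℕ} (h : 8 ≤ l) : (SP l).card = 2 := by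
  unfold SP
  rw [card_pair]
  omega

private theorem prodQ (w : ℕ) :
    ∏ l ∈ QP w, (1 - ((SP l).card : ℝ) / l) ≤ Real.exp (-(2 * ∑ l ∈ QP w, (1 : ℝ) / l)) ∧
    0 ≤ ∏ l ∈ QP w, (1 - ((SP l).card : ℝ) / l) := by
  have hl : ∀ l ∈ QP w, 8 ≤ l := fun l hl => by
    unfold QP at hl
    exact (mem_Icc.1 (mem_filter.1 hl).1).1
  have h0 : ∀ l ∈ QP w, 0 ≤ 1 - ((SP l).card : ℝ) / l := by
    intro l hl'
    rw [card_SP (hl l hl')]
    have h8 : (8 : ℝ) ≤ l := by exact_mod_cast hl l hl'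
    have : ((2 : ℕ) : ℝ) / l ≤ 1 := by
      rw [div_le_one (by linarith)]
      push_cast
      linarith
    linarith
  refine ⟨?_, prod_nonneg h0⟩
  rw [mul_sum, ← sum_neg_distrib, Real.exp_sum]
  refine prod_le_prod h0 fun l hl' => ?_
  rw [card_SP (hl l hl')]
  have := Real.add_one_le_exp (-(2 * ((1 : ℝ) / l)))
  push_cast
  refine le_trans (le_of_eq ?_) this
  ring

open Classical in
private theorem count (N w : ℕ) (hN : 1 ≤ N) :
    (P2 N : ℝ) ≤ w + (((Icc 1 N).filter (fun m : ℕ => ∀ l ∈ QP w, m % l ∉ SP l)).card : ℝ) := by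
  have h1 : P2 N ≤ (Icc 1 w ∪ (Icc 1 N).filter (fun m : ℕ => ∀ l ∈ QP w, m % l ∉ SP l)).card := by
    unfold P2
    refine card_le_card_of_injOn (fun p => (p + 1) / 2) ?_ ?_
    · intro p hp
      have hp' := mem_filter.1 (mem_coe.1 hp)
      obtain ⟨hp1, hpp, q, hq, hpq⟩ := hp'
      have hq2 : (p + 1) / 2 = q := by omega
      have hpN := (mem_Icc.1 hp1).2
      show (p + 1) / 2 ∈ _
      rw [hq2, mem_coe, mem_union, mem_Icc, mem_filter, mem_Icc]
      have hq1 := hq.two_le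
      by_cases hw : q ≤ w
      · exact Or.inl ⟨by omega, hw⟩
      refine Or.inr ⟨⟨by omega, by omega⟩, fun l hl => ?_⟩
      unfold QP at hl
      obtain ⟨hl1, hlp⟩ := mem_filter.1 hl
      obtain ⟨hl8, hlw⟩ := mem_Icc.1 hl1
      unfold SP
      rw [mem_insert, mem_singleton, not_or]
      constructor
      · intro h0
        have hd : l ∣ q := Nat.dvd_of_mod_eq_zero h0
        have := (Nat.prime_dvd_prime_iff_eq hlp hq).1 hd
        omega
      · intro h0
        have hodd : l % 2 = 1 := (Nat.Prime.eq_two_or_odd hlp).resolve_left (by omega)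
        have hdm := Nat.div_add_mod q l
        have hd : l ∣ p := by
          refine ⟨2 * (q / l) + 1, ?_⟩
          have e : l * (2 * (q / l) + 1) = 2 * (l * (q / l)) + l := by ring
          rw [e]
          omega
        have := (Nat.prime_dvd_prime_iff_eq hlp hpp).1 hd
        omega
    · intro a ha b hb hab
      obtain ⟨-, -, q, -, h3⟩ := mem_filter.1 (mem_coe.1 ha)
      obtain ⟨-, -, q', -, h4⟩ := mem_filter.1 (mem_coe.1 hb)
      have hab' : (a + 1) / 2 = (b + 1) / 2 := hab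
      omega
  have h2 := h1.trans (card_union_le _ _)
  rw [Nat.card_Icc, Nat.add_sub_cancel] at h2
  exact_mod_cast h2

theorem hPI2 (hV : StSV) (hM : StMT) : StPI2 := by
  classical
  obtain ⟨C0, hC0, hM⟩ := hM
  obtain ⟨B, hB⟩ := hV 1 one_pos
  obtain ⟨D, hD⟩ : ∃ D : ℕ, D = 4 * (B + 1) := ⟨_, rfl⟩
  have hD0 : D ≠ 0 := by omega
  have hDr : (0 : ℝ) < D := by exact_mod_cast (by omega : 0 < D)
  obtain ⟨E, hE⟩ : ∃ E : ℝ, E = Real.exp (2 * C0 + 4) := ⟨_, rfl⟩
  have hE0 : 0 < E := by rw [hE]; exact Real.exp_pos _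
  obtain ⟨N₁, hN₁⟩ : ∃ N₁ : ℕ, N₁ = 3 ^ D := ⟨_, rfl⟩
  refine ⟨32 + 8 * (D : ℝ) ^ 2 * E + (1 + Real.log N₁) ^ 2, by positivity, ?_⟩
  intro N hN
  have hNr : (1 : ℝ) ≤ N := by exact_mod_cast hN
  have hlN : 0 ≤ Real.log N := Real.log_nonneg hNr
  have hpos : 0 < (1 + Real.log N) ^ 2 := by positivity
  rw [le_div_iff₀ hpos]
  by_cases hsm : N < N₁
  · have h1 : (P2 N : ℝ) ≤ N := by
      have : P2 N ≤ N := by
        unfold P2
        refine (card_filter_le _ _).trans ?_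
        rw [Nat.card_Icc, Nat.add_sub_cancel]
      exact_mod_cast this
    have h2 : Real.log N ≤ Real.log N₁ := Real.log_le_log (by linarith) (by exact_mod_cast hsm.le)
    have h3 : (1 + Real.log N) ^ 2 ≤ (1 + Real.log N₁) ^ 2 := by gcongr
    calc (P2 N : ℝ) * (1 + Real.log N) ^ 2 ≤ N * (1 + Real.log N₁) ^ 2 := by gcongr
      _ ≤ (32 + 8 * (D : ℝ) ^ 2 * E + (1 + Real.log N₁) ^ 2) * N := by
          have : 0 ≤ (32 + 8 * (D : ℝ) ^ 2 * E) * N := by positivity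
          nlinarith
  have hbig : N₁ ≤ N := not_lt.1 hsm
  obtain ⟨u, hu⟩ : ∃ u : ℝ, u = (N : ℝ) ^ ((D : ℝ)⁻¹) := ⟨_, rfl⟩
  have hu0 : 0 < u := by rw [hu]; exact Real.rpow_pos_of_pos (by linarith) _
  have huD : u ^ D = N := by rw [hu]; exact Real.rpow_inv_natCast_pow (by linarith) hD0
  have hu3 : 3 ≤ u := by
    have h1 : (3 : ℝ) ^ D ≤ u ^ D := by
      rw [huD]
      exact_mod_cast (hN₁ ▸ hbig)
    exact (pow_le_pow_iff_left₀ (by norm_num) hu0.le hD0).1 h1
  have hlu : Real.log N = D * Real.log u := by rw [← huD, Real.log_pow]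
  have hlu1 : 1 ≤ Real.log u := by
    rw [Real.le_log_iff_exp_le hu0]
    have := Real.exp_one_lt_d9
    linarith
  obtain ⟨w, hw⟩ : ∃ w : ℕ, w = ⌊u ^ 2⌋₊ := ⟨_, rfl⟩
  have hw1 : (w : ℝ) ≤ u ^ 2 := by rw [hw]; exact Nat.floor_le (by positivity)
  have hw2 : u ^ 2 < w + 1 := by rw [hw]; exact Nat.lt_floor_add_one _
  have hwu : u ≤ w := by nlinarith
  have hw3 : 3 ≤ w := by
    have : (3 : ℝ) ≤ w := by linarith
    exact_mod_cast this
  have hlw : Real.log u ≤ Real.log w := Real.log_le_log hu0 hwu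
  -- powers
  obtain ⟨s, hs⟩ : ∃ s : ℝ, s = u ^ (B + 1) := ⟨_, rfl⟩
  have hs1 : 1 ≤ s := by rw [hs]; exact one_le_pow₀ (by linarith)
  have hs4 : s ^ 4 = N := by rw [hs, ← pow_mul, ← huD, hD]; congr 1; ring
  have hws : (w : ℝ) ≤ s ^ 2 := by
    refine hw1.trans ?_
    rw [hs, ← pow_mul]
    exact pow_le_pow_right₀ (by linarith) (by omega)
  have hwB : (w : ℝ) ^ B ≤ s ^ 2 := by
    calc (w : ℝ) ^ B ≤ (u ^ 2) ^ B := by gcongr
      _ = u ^ (2 * B) := by rw [← pow_mul]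
      _ ≤ u ^ ((B + 1) * 2) := pow_le_pow_right₀ (by linarith) (by omega)
      _ = s ^ 2 := by rw [hs, ← pow_mul]
  have hls : 1 + Real.log N ≤ 4 * s := by
    have h1 : Real.log N = 4 * Real.log s := by
      rw [← hs4, Real.log_pow]
      norm_num
    have h2 := Real.log_le_sub_one_of_pos (lt_of_lt_of_le one_pos hs1)
    linarith
  have hss : s ^ 2 * (1 + Real.log N) ^ 2 ≤ 16 * N := by
    calc s ^ 2 * (1 + Real.log N) ^ 2 ≤ s ^ 2 * (4 * s) ^ 2 := by gcongr
      _ = 16 * s ^ 4 := by ring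
      _ = 16 * N := by rw [hs4]
  -- the sieve
  have hsv := hB w N (by omega) (QP w) SP (by
      intro l hl
      unfold QP at hl
      obtain ⟨hl1, hlp⟩ := mem_filter.1 hl
      obtain ⟨hl8, hlw⟩ := mem_Icc.1 hl1
      exact ⟨hlp, hl8, hlw⟩) (by
      intro l hl
      unfold QP at hl
      obtain ⟨hl1, hlp⟩ := mem_filter.1 hl
      obtain ⟨hl8, hlw⟩ := mem_Icc.1 hl1
      refine ⟨?_, by rw [card_SP hl8]; norm_num⟩
      intro s hs
      unfold SP at hs
      rw [mem_insert, mem_singleton] at hs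
      omega)
  obtain ⟨hV1, hV0⟩ := prodQ w
  obtain ⟨V, hVd⟩ : ∃ V : ℝ, V = ∏ l ∈ QP w, (1 - ((SP l).card : ℝ) / l) := ⟨_, rfl⟩
  rw [← hVd] at hsv hV1 hV0
  have hsv' : (((Icc 1 N).filter (fun m : ℕ => ∀ l ∈ QP w, m % l ∉ SP l)).card : ℝ)
      ≤ 2 * (N * V) + s ^ 2 := by
    have h1 := (abs_le.1 hsv).2
    have h2 : (((Icc 1 N).filter (fun m : ℕ => ∀ l ∈ QP w, m % l ∉ SP l)).card : ℝ)
      ≤ N * V + 1 * (N * V) + (w : ℝ) ^ B := by linarith
    linarith
  have hcnt := count N w hN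
  have hcnt' : (P2 N : ℝ) ≤ w + (((Icc 1 N).filter
      (fun m : ℕ => ∀ l ∈ QP w, m % l ∉ SP l)).card : ℝ) := by
    convert hcnt using 3
  -- the product
  have hlw0 : 0 < Real.log w := by linarith
  have hVle : V * (1 + Real.log N) ^ 2 ≤ 4 * (D : ℝ) ^ 2 * E := by
    have hMw := hM (w : ℝ) (by exact_mod_cast hw3)
    rw [Nat.floor_natCast] at hMw
    have h1 := (abs_le.1 hMw).1
    have h2 := qp_sum w
    have h3 : Real.log (Real.log w) - C0 - 2 ≤ ∑ l ∈ QP w, (1 : ℝ) / l := by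
      unfold MM at h2
      linarith
    have h4 : V ≤ E / Real.log w ^ 2 := by
      refine hV1.trans ?_
      rw [le_div_iff₀ (by positivity)]
      have h5 : Real.exp (-(2 * ∑ l ∈ QP w, (1 : ℝ) / l))
          ≤ Real.exp (2 * C0 + 4 - 2 * Real.log (Real.log w)) := Real.exp_le_exp.2 (by linarith)
      have h6 : Real.exp (2 * C0 + 4 - 2 * Real.log (Real.log w)) * Real.log w ^ 2 = E := by
        rw [Real.exp_sub, ← hE]
        have h7 : Real.exp (2 * Real.log (Real.log w)) = Real.log w ^ 2 := by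
          rw [two_mul, Real.exp_add, Real.exp_log hlw0]
          ring
        rw [h7]
        field_simp
      calc Real.exp (-(2 * ∑ l ∈ QP w, (1 : ℝ) / l)) * Real.log w ^ 2
          ≤ Real.exp (2 * C0 + 4 - 2 * Real.log (Real.log w)) * Real.log w ^ 2 := by gcongr
        _ = E := h6
    have h8 : 1 + Real.log N ≤ 2 * D * Real.log w := by
      have hD4 : (4 : ℝ) ≤ D := by exact_mod_cast (by omega : 4 ≤ D)
      rw [hlu]
      nlinarith
    calc V * (1 + Real.log N) ^ 2 ≤ E / Real.log w ^ 2 * (2 * D * Real.log w) ^ 2 := by gcongr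
      _ = 4 * (D : ℝ) ^ 2 * E := by field_simp; ring
  have hP : (P2 N : ℝ) ≤ 2 * s ^ 2 + 2 * (N * V) := by linarith
  calc (P2 N : ℝ) * (1 + Real.log N) ^ 2 ≤ (2 * s ^ 2 + 2 * (N * V)) * (1 + Real.log N) ^ 2 := by
        gcongr
    _ = 2 * (s ^ 2 * (1 + Real.log N) ^ 2) + 2 * N * (V * (1 + Real.log N) ^ 2) := by ring
    _ ≤ 2 * (16 * N) + 2 * N * (4 * (D : ℝ) ^ 2 * E) := by gcongr
    _ ≤ (32 + 8 * (D : ℝ) ^ 2 * E + (1 + Real.log N₁) ^ 2) * N := by
        have : 0 ≤ (1 + Real.log N₁) ^ 2 * N := by positivity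
        nlinarith

end Pool.Agent.Helper24.PS
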