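import Pool.Agent.Helper21.PS.Basic

/-!
# MP_8013d7_co (full answer): module NF, pairs that are not free
-/

set_option autoImplicit false

namespace PS

open SimpleGraph Finset Pool.Agent.Helper37.PathSys
open Pool.Agent.Helper37.PathSys.PathSystem
open Filter Topology

open scoped Classical

noncomputable section

variable {n : ℕ} {G : SimpleGraph (Fin n)} {P : PathSystem G}

private lemma pair_mem (hP : P.Consistent) (s : ℕ) (p : Pr n)
    (h1 : P.nxt p.1.1 p.1.2 ≠ p.1.2) (h2 : P.nxt p.1.1 p.1.2 ≠ P.nxt p.1.2 p.1.1)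
    (h3 : ¬ (hv s P (P.nxt p.1.1 p.1.2) (P.nxt p.1.2 p.1.1) ∧
      hv s P (P.nxt p.1.2 p.1.1) (P.nxt p.1.1 p.1.2))) :
    p ∈ KKs (arcP s P) ∪ LLs s P := by
  rw [mem_union]
  by_cases hK : p ∈ KKs (arcP s P)
  · exact Or.inl hK
  · right
    simp only [LLs, mem_filter, mem_univ, true_and]
    refine ⟨?_, h2, h3⟩
    simp only [Rem, mem_filter, mem_univ, true_and]
    exact ⟨by rwa [dirG_adj hP p.2.ne], hK⟩

private lemma charge (hP : P.Consistent) (s : ℕ) {a b v : Fin n} (hab : a ≠ b)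
    (hd : ¬ (dirG P).Adj a b) (hva : v ≠ a) (hv1 : P.nxt v a = b) :
    s(a, b) ∈ (KKs (arcP s P)).image (fun p => s(p.1.1, p.1.2)) ∪
      ((KKs (arcP s P) ∪ LLs s P).image (fun p => s(p.1.1, P.nxt p.1.2 p.1.1)) ∪
        (KKs (arcP s P) ∪ LLs s P).image (fun p => s(p.1.2, P.nxt p.1.1 p.1.2))) := by
  have hx : P.nxt a b = P.nxt a v := by
    have h := nxt_rev hP hva (by rw [hv1]; exact hab.symm)
    rwa [hv1] at h
  have hxb : P.nxt a b ≠ b := by rwa [dirG_adj hP hab] at hd
  have hav : P.nxt a v ≠ v := by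
    intro h
    have h1 := nxt_symm_of_dir hP hva.symm h
    rw [hv1] at h1
    exact hab h1.symm
  by_cases hh : hv s P (P.nxt a b) b
  · rw [mem_union]
    left
    have hk : arcP s P b a ≠ none := arcP_ne_none.2 ⟨hab, hh⟩
    rcases lt_or_gt_of_ne hab with h | h
    · refine mem_image.2 ⟨⟨(a, b), h⟩, ?_, rfl⟩
      simp only [KKs, mem_filter, mem_univ, true_and]
      exact Or.inr hk
    · refine mem_image.2 ⟨⟨(b, a), h⟩, ?_, Sym2.eq_swap⟩
      simp only [KKs, mem_filter, mem_univ, true_and]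
      exact Or.inl hk
  · rw [mem_union, mem_union]
    right
    rcases lt_or_gt_of_ne hva with h | h
    · right
      refine mem_image.2 ⟨⟨(v, a), h⟩, ?_, ?_⟩
      · apply pair_mem hP
        · change P.nxt v a ≠ a
          rw [hv1]
          exact hab.symm
        · change P.nxt v a ≠ P.nxt a v
          rw [hv1, ← hx]
          exact hxb.symm
        · change ¬ (hv s P (P.nxt v a) (P.nxt a v) ∧ hv s P (P.nxt a v) (P.nxt v a))
          rw [hv1, ← hx]
          exact fun h' => hh h'.2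
      · change s(a, P.nxt v a) = s(a, b)
        rw [hv1]
    · left
      refine mem_image.2 ⟨⟨(a, v), h⟩, ?_, ?_⟩
      · apply pair_mem hP
        · exact hav
        · change P.nxt a v ≠ P.nxt v a
          rw [hv1, ← hx]
          exact hxb
        · change ¬ (hv s P (P.nxt a v) (P.nxt v a) ∧ hv s P (P.nxt v a) (P.nxt a v))
          rw [hv1, ← hx]
          exact fun h' => hh h'.1
      · change s(a, P.nxt v a) = s(a, b)
        rw [hv1]

theorem nonfree_le (hP : P.Consistent) (s : ℕ) :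
    (NonFree P).card ≤ 3 * (KKs (arcP s P)).card + 2 * (LLs s P).card := by
  have hinj : Function.Injective (fun p : Pr n => s(p.1.1, p.1.2)) := by
    rintro ⟨⟨a, b⟩, hab⟩ ⟨⟨c, d⟩, hcd⟩ h
    simp only [Sym2.eq_iff] at h
    rcases h with ⟨h1, h2⟩ | ⟨h1, h2⟩
    · subst h1; subst h2; rfl
    · subst h1; subst h2
      exact absurd hab (not_lt.2 hcd.le)
  have hsub : (NonFree P).image (fun p => s(p.1.1, p.1.2)) ⊆
      (KKs (arcP s P)).image (fun p => s(p.1.1, p.1.2)) ∪
      ((KKs (arcP s P) ∪ LLs s P).image (fun p => s(p.1.1, P.nxt p.1.2 p.1.1)) ∪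
        (KKs (arcP s P) ∪ LLs s P).image (fun p => s(p.1.2, P.nxt p.1.1 p.1.2))) := by
    intro e he
    obtain ⟨⟨⟨a, b⟩, hab⟩, hp, rfl⟩ := mem_image.1 he
    simp only [NonFree, mem_filter, mem_univ, true_and, Free, not_and_or, not_forall,
      not_not] at hp
    obtain ⟨hd, ⟨v, hva, hv1⟩ | ⟨u, hub, hu1⟩⟩ := hp
    · exact charge hP s hab.ne hd hva hv1
    · have := charge hP s hab.ne' (fun h => hd h.symm) hub hu1
      rwa [Sym2.eq_swap] at this
  have h1 : (NonFree P).card = ((NonFree P).image (fun p : Pr n => s(p.1.1, p.1.2))).card :=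
    (card_image_of_injective _ hinj).symm
  have h2 := card_le_card hsub
  have h3 := card_union_le ((KKs (arcP s P)).image (fun p : Pr n => s(p.1.1, p.1.2)))
    ((KKs (arcP s P) ∪ LLs s P).image (fun p => s(p.1.1, P.nxt p.1.2 p.1.1)) ∪
        (KKs (arcP s P) ∪ LLs s P).image (fun p => s(p.1.2, P.nxt p.1.1 p.1.2)))
  have h4 := card_union_le
    ((KKs (arcP s P) ∪ LLs s P).image (fun p => s(p.1.1, P.nxt p.1.2 p.1.1)))
    ((KKs (arcP s P) ∪ LLs s P).image (fun p => s(p.1.2, P.nxt p.1.1 p.1.2)))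
  have h5 : ((KKs (arcP s P)).image (fun p : Pr n => s(p.1.1, p.1.2))).card ≤
    (KKs (arcP s P)).card := card_image_le
  have h6 : ((KKs (arcP s P) ∪ LLs s P).image (fun p => s(p.1.1, P.nxt p.1.2 p.1.1))).card ≤
    (KKs (arcP s P) ∪ LLs s P).card := card_image_le
  have h7 : ((KKs (arcP s P) ∪ LLs s P).image (fun p => s(p.1.2, P.nxt p.1.1 p.1.2))).card ≤
    (KKs (arcP s P) ∪ LLs s P).card := card_image_le
  have h8 := card_union_le (KKs (arcP s P)) (LLs s P)
  omega

end

end PS
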