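import Pool.Agent.Helper18.PS.St3

/-!
# Project PS (MP_4afa08_nt), module FI3
-/

set_option autoImplicit false

namespace Pool.Agent.Helper24.PS3

open Finset
open Nat (totient)
open Pool.Agent.Helper18.PS

private lemma term {K : ℝ} (hK : 0 < K)
    (h : ∀ N : ℕ, 1 ≤ N → (cU N : ℝ) ≤ K * N / (1 + Real.log N) ^ 2) {N k : ℕ} (hN : 1 ≤ N)
    (hk : 2 ^ k ≤ N) :
    (cU (N / 2 ^ k) : ℝ) * 2 ^ k ≤
      16 * K * N / (1 + Real.log N - k * Real.log 2) ^ 2 := by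
  obtain ⟨m, hm⟩ : ∃ m, m = N / 2 ^ k := ⟨_, rfl⟩
  rw [← hm]
  have h2 : 0 < 2 ^ k := by positivity
  have hm1 : 1 ≤ m := by rw [hm]; exact (Nat.one_le_div_iff h2).2 hk
  have hm0 : (0 : ℝ) < m := by exact_mod_cast hm1
  have hN0 : (0 : ℝ) < N := by exact_mod_cast hN
  have hp : (0 : ℝ) < 2 ^ k := by positivity
  have e1 : (m : ℝ) * 2 ^ k ≤ N := by
    have := Nat.div_mul_le_self N (2 ^ k)
    rw [← hm] at this
    exact_mod_cast this
  have e2 : (N : ℝ) ≤ m * 2 ^ k * 2 := by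
    have h3 := Nat.lt_mul_div_succ N h2
    rw [← hm] at h3
    have h4 : (N : ℝ) < 2 ^ k * (m + 1) := by exact_mod_cast h3
    have h5 : (1 : ℝ) ≤ m := by exact_mod_cast hm1
    nlinarith
  have l1 : Real.log N ≤ Real.log m + k * Real.log 2 + Real.log 2 := by
    have h3 := Real.log_le_log hN0 e2
    rw [Real.log_mul (by positivity) (by norm_num), Real.log_mul hm0.ne' hp.ne', Real.log_pow] at h3
    exact h3
  have l2 : (k : ℝ) * Real.log 2 ≤ Real.log N := by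
    have h3 : ((2 : ℝ) ^ k) ≤ N := by exact_mod_cast hk
    have h4 := Real.log_le_log hp h3
    rwa [Real.log_pow] at h4
  have l3 : Real.log 2 < 0.6931471808 := Real.log_two_lt_d9
  obtain ⟨v, hv⟩ : ∃ v, v = 1 + Real.log N - k * Real.log 2 := ⟨_, rfl⟩
  rw [← hv]
  have hv1 : 1 ≤ v := by rw [hv]; linarith
  have l4 : v / 4 ≤ 1 + Real.log m := by
    have : v - Real.log 2 ≤ 1 + Real.log m := by rw [hv]; linarith
    linarith
  have h6 := h m hm1
  have hv0 : 0 < v / 4 := by positivity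
  calc (cU m : ℝ) * 2 ^ k ≤ K * m / (1 + Real.log m) ^ 2 * 2 ^ k :=
        mul_le_mul_of_nonneg_right h6 hp.le
    _ ≤ K * m / (v / 4) ^ 2 * 2 ^ k := by gcongr
    _ = 16 * K / v ^ 2 * (m * 2 ^ k) := by
        field_simp
        ring
    _ ≤ 16 * K / v ^ 2 * N := by gcongr
    _ = _ := by ring

/-- Module FI3. -/
theorem hFI3 (hR : StRE3) (hS : StSU3) (hB : StBOO) : StFI3 := by
  obtain ⟨K, hK, hB⟩ := hB
  obtain ⟨C, hC, hR⟩ := hR
  obtain ⟨D, hD, hS⟩ := hS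
  refine ⟨C * (16 * K * D), by positivity, fun M hM => ?_⟩
  obtain ⟨N₀, hN₀⟩ := hS M hM
  refine ⟨max N₀ 1, fun N hN => ?_⟩
  have hN1 : 1 ≤ N := (le_max_right _ _).trans hN
  have hN2 : N₀ ≤ N := (le_max_left _ _).trans hN
  have hN0 : (0 : ℝ) < N := by exact_mod_cast hN1
  refine (hR M N hM hN1).trans ?_
  have key := hN₀ N hN2
  have p3 : ∑ k ∈ (range (N + 1)).filter
      (fun k : ℕ => Real.exp (Real.log N ^ (2 / 3 : ℝ)) ≤ 2 ^ (k + 1) ∧ M * 2 ^ k ≤ N),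
      (cU (N / 2 ^ k) : ℝ) * 2 ^ k / (1 + (k : ℝ)) ^ 2 ≤
      16 * K * N * ∑ k ∈ (range (N + 1)).filter
        (fun k : ℕ => Real.exp (Real.log N ^ (2 / 3 : ℝ)) ≤ 2 ^ (k + 1) ∧ M * 2 ^ k ≤ N),
        1 / ((1 + Real.log N - k * Real.log 2) ^ 2 * (1 + (k : ℝ)) ^ 2) := by
    rw [Finset.mul_sum]
    refine Finset.sum_le_sum fun k hk => ?_
    have hk1 := (Finset.mem_filter.1 hk).2.2
    have hk2 : 2 ^ k ≤ N := by
      refine le_trans ?_ hk1
      exact Nat.le_mul_of_pos_left _ hM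
    have h1 := term hK hB hN1 hk2
    have e : 16 * K * N * (1 / ((1 + Real.log N - k * Real.log 2) ^ 2 * (1 + (k : ℝ)) ^ 2)) =
        16 * K * N / (1 + Real.log N - k * Real.log 2) ^ 2 / (1 + (k : ℝ)) ^ 2 := by
      rw [div_div, mul_one_div]
    rw [e]
    exact div_le_div_of_nonneg_right h1 (by positivity)
  calc _ ≤ C * (16 * K * N * (D / ((1 + Real.log M) * (1 + Real.log N) ^ 2))) := by
        refine mul_le_mul_of_nonneg_left ?_ hC.le
        exact p3.trans (mul_le_mul_of_nonneg_left key (by positivity))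
    _ = _ := by ring

end Pool.Agent.Helper24.PS3
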